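import Pool.Agent.TOR.Stmts
import Pool.Agent.Helper82_RS.FAI

/-!
# Squad TOR, row FTH (helper22): Jacobian criterion and faithfulness for monomial substitutions
-/

set_option autoImplicit false

namespace Pool.Agent.TOR.H22

open MvPolynomial Pool.Agent.TOR Pool.Agent.RS.H82

theorem fth (hsub : SubStmt) : FthStmt := by
  classical
  intro E _ _ m k n T hn hk
  obtain ⟨ρ, s, hρ, hs, halg⟩ := exists_maximal (E := E) T k (by
    intro s hs
    have hinj : Function.Injective s := by
      intro a b hab
      exact hs.injective (by simp only [hab])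
    let u : Finset (Fin m) := Finset.univ.map ⟨s, hinj⟩
    have hu : AlgebraicIndependent E (fun i : u => T i) := by
      have hmem : ∀ i : u, ∃ a, s a = i := by
        rintro ⟨i, hi⟩
        obtain ⟨a, -, ha⟩ := Finset.mem_map.1 hi
        exact ⟨a, ha⟩
      choose g hg using hmem
      have hginj : Function.Injective g := by
        intro a b hab
        apply Subtype.ext
        rw [← hg a, ← hg b, hab]
      have h1 := hs.comp g hginj
      have h2 : (fun l => T (s l)) ∘ g = fun i : u => T i := by
        funext i
        simp only [Function.comp, hg]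
      rw [h2] at h1
      exact h1
    have h3 := hk u hu
    rw [Finset.card_map, Finset.card_univ, Fintype.card_fin] at h3
    omega)
  obtain ⟨c, hc⟩ := exists_jacobian_minor _ hs
  have htr : ∀ (c : Fin ρ → ℕ) (S : Fin ρ → MvPolynomial ℕ E),
      (Matrix.of fun i l => X (c i) * pderiv (c i) (S l)).det =
      (∏ i, X (c i)) * (Matrix.of fun l i => pderiv (c i) (S l)).det := by
    intro c S
    rw [← Matrix.det_transpose (Matrix.of fun l i => pderiv (c i) (S l))]
    exact Matrix.det_mul_column (fun i => (X (c i) : MvPolynomial ℕ E))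
      (Matrix.of fun l i => pderiv (c i) (S l)).transpose
  refine ⟨ρ, s, c, hρ, ?_, ?_, ?_⟩
  · intro j
    by_contra hj
    apply hc
    refine Matrix.det_eq_zero_of_column_eq_zero j fun l => ?_
    rw [Matrix.of_apply]
    exact pderiv_eq_zero_of_notMem_vars fun h => hj (Finset.mem_range.1 (hn _ h))
  · rw [htr]
    exact mul_ne_zero (Finset.prod_ne_zero_iff.2 fun i _ => X_ne_zero (c i)) hc
  · intro e c' C hdet hC
    have h1 : sub e (Matrix.of fun i l => Du (fun x => ((e x (c' i) : ℕ) : E)) (T (s l))).det =
        (Matrix.of fun i l => X (c' i) * pderiv (c' i) (sub e (T (s l)))).det := by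
      rw [AlgHom.map_det]
      refine congrArg Matrix.det ?_
      ext1 i l
      exact ((hsub E e).2.2 (T (s l)) (c' i)).symm
    rw [h1, htr c' fun l => sub e (T (s l))] at hdet
    refine faithful T s hs halg (sub e)
      (algebraicIndependent_of_minor _ c' (right_ne_zero_of_mul hdet)) _ ?_ hC
    rw [Algebra.adjoin_range_eq_range_aeval]
    exact ⟨C, rfl⟩

end Pool.Agent.TOR.H22
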