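import Pool.Agent.TOR.Stmts

/-!
# Squad TOR, row MLN (helper22): common good rows for multilinear forms
-/

set_option autoImplicit false

namespace Pool.Agent.TOR.H22

open Pool.Agent.TOR

/-- the row of `b` -/
noncomputable def row (K : Type) [Field K] (n q b : ℕ) : ℕ → K :=
  fun l => if l < n then (wt q b l : K) else 0

theorem row_eq (K : Type) [Field K] (n q b : ℕ) :
    row K n q b = ∑ l ∈ Finset.range n, (wt q b l : K) • (Pi.single l (1 : K) : ℕ → K) := by
  classical
  funext l
  rw [Finset.sum_apply]
  unfold row
  by_cases hl : l < n
  · rw [if_pos hl, Finset.sum_eq_single l]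
    · rw [Pi.smul_apply, Pi.single_eq_same, smul_eq_mul, mul_one]
    · intro l' _ hne
      rw [Pi.smul_apply, Pi.single_eq_of_ne (Ne.symm hne), smul_zero]
    · intro h
      exact absurd (Finset.mem_range.2 hl) h
  · rw [if_neg hl]
    refine (Finset.sum_eq_zero fun l' hl' => ?_).symm
    rw [Pi.smul_apply, Pi.single_eq_of_ne, smul_zero]
    rintro rfl
    exact hl (Finset.mem_range.1 hl')

theorem mln (hvdm : VdmStmt) : MlnStmt := by
  classical
  intro K _ _ n q k ι _ ρ Δ hq hcard hρ hΔ
  have hstep : ∀ j : ℕ, ∃ β : ℕ → Fin q, ∀ i, ∃ c : Fin (ρ i) → ℕ, (∀ l, c l < n) ∧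
      Δ i (fun l => if (l : ℕ) < j then row K n q (β l) else Pi.single (c l) 1) ≠ 0 := by
    intro j
    induction j with
    | zero =>
      refine ⟨fun _ => ⟨0, hq.pos⟩, fun i => ?_⟩
      obtain ⟨c, hc, hne⟩ := hΔ i
      exact ⟨c, hc, by simpa using hne⟩
    | succ j ih =>
      obtain ⟨β, hβ⟩ := ih
      choose c hc hne using hβ
      let v : ∀ i, Fin (ρ i) → ℕ → K := fun i l =>
        if (l : ℕ) < j then row K n q (β l) else Pi.single (c i l) 1
      let bad : ι → Finset (Fin q) := fun i =>
        if h : j < ρ i then
          Finset.univ.filter fun b : Fin q => ∑ l ∈ Finset.range n,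
            Δ i (Function.update (v i) ⟨j, h⟩ (Pi.single l 1)) * (wt q b l : K) = 0
        else ∅
      have hbad : ∀ i, (bad i).card ≤ n := by
        intro i
        by_cases h : j < ρ i
        · have hlt := (hvdm n q hq).1 K
            (fun l => Δ i (Function.update (v i) ⟨j, h⟩ (Pi.single l 1)))
            ⟨c i ⟨j, h⟩, hc i ⟨j, h⟩, by
              have e : Function.update (v i) ⟨j, h⟩ (Pi.single (c i ⟨j, h⟩) 1) = v i := by
                rw [Function.update_eq_self_iff]
                show _ = if j < j then _ else _
                rw [if_neg (lt_irrefl j)]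
              rw [e]
              exact hne i⟩ (bad i) (by
                intro b hb
                simp only [bad, dif_pos h, Finset.mem_filter] at hb
                exact hb.2)
          exact hlt.le
        · simp only [bad, dif_neg h, Finset.card_empty]
          exact Nat.zero_le _
      have hex : ∃ b : Fin q, ∀ i, b ∉ bad i := by
        by_contra hcon
        push Not at hcon
        have h1 : (Finset.univ : Finset (Fin q)) ⊆ Finset.univ.biUnion bad := by
          intro b _
          obtain ⟨i, hi⟩ := hcon b
          exact Finset.mem_biUnion.2 ⟨i, Finset.mem_univ i, hi⟩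
        have h2 := Finset.card_le_card h1
        have h3 := Finset.card_biUnion_le_card_mul Finset.univ bad n (fun i _ => hbad i)
        rw [Finset.card_univ, Fintype.card_fin] at h2
        rw [Finset.card_univ] at h3
        omega
      obtain ⟨b, hb⟩ := hex
      refine ⟨Function.update β j b, fun i => ⟨c i, hc i, ?_⟩⟩
      by_cases h : j < ρ i
      · have e : (fun l : Fin (ρ i) => if (l : ℕ) < j + 1 then
            row K n q (Function.update β j b l) else Pi.single (c i l) 1) =
            Function.update (v i) ⟨j, h⟩ (row K n q b) := by
          funext l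
          by_cases hl : l = ⟨j, h⟩
          · subst hl
            rw [Function.update_self, if_pos (Nat.lt_succ_self j), Function.update_self]
          · have hlj : (l : ℕ) ≠ j := fun h' => hl (Fin.ext h')
            rw [Function.update_of_ne hl, Function.update_of_ne hlj]
            show _ = if (l : ℕ) < j then _ else _
            by_cases h2 : (l : ℕ) < j
            · rw [if_pos h2, if_pos (by omega)]
            · rw [if_neg h2, if_neg (by omega)]
        rw [e, row_eq, MultilinearMap.map_update_sum]
        have hbi := hb i
        simp only [bad, dif_pos h, Finset.mem_filter, Finset.mem_univ, true_and] at hbi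
        intro h0
        apply hbi
        rw [← h0]
        refine Finset.sum_congr rfl fun l _ => ?_
        rw [MultilinearMap.map_update_smul, smul_eq_mul, mul_comm]
      · have e : (fun l : Fin (ρ i) => if (l : ℕ) < j + 1 then
            row K n q (Function.update β j b l) else Pi.single (c i l) 1) = v i := by
          funext l
          have h1 : (l : ℕ) < j := by
            have := l.2
            omega
          rw [Function.update_of_ne (by omega), if_pos (by omega)]
          show _ = if (l : ℕ) < j then _ else _
          rw [if_pos h1]
        rw [e]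
        exact hne i
  obtain ⟨β, hβ⟩ := hstep k
  refine ⟨fun a => β a, fun i => ?_⟩
  obtain ⟨c, -, hne⟩ := hβ i
  have e : (fun l : Fin (ρ i) => if (l : ℕ) < k then row K n q (β l) else Pi.single (c l) 1) =
      fun (j : Fin (ρ i)) (l : ℕ) =>
        if l < n then ((wt q (β (Fin.castLE (hρ i) j)) l : ℕ) : K) else 0 := by
    funext l
    rw [if_pos (lt_of_lt_of_le l.2 (hρ i))]
    rfl
  rw [e] at hne
  exact hne

end Pool.Agent.TOR.H22
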