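import Pool.Agent.TOR.Stmts
import Pool.Agent.Helper22_TOR.MLN
import Pool.Agent.Helper82_RS.Minor

/-!
# Squad TOR, row MOD (helper22): injective exponents for finitely many spaces
-/

set_option autoImplicit false

namespace Pool.Agent.TOR.H22

open Pool.Agent.TOR

/-- `∑ l < n, w_a(l) u(l)` -/
noncomputable def pair (n : ℕ) {r : ℕ} (w : Fin r → ℕ →₀ ℚ) : (ℕ → ℚ) →ₗ[ℚ] (Fin r → ℚ) :=
  LinearMap.pi fun a => ∑ l ∈ Finset.range n, (w a l) • LinearMap.proj l

theorem pair_apply (n : ℕ) {r : ℕ} (w : Fin r → ℕ →₀ ℚ) (u : ℕ → ℚ) (a : Fin r) :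
    pair n w u a = ∑ l ∈ Finset.range n, w a l * u l := by
  unfold pair
  rw [LinearMap.pi_apply, LinearMap.sum_apply]
  rfl

theorem supp_of_intSpan {n D : ℕ} {V : Submodule ℚ (ℕ →₀ ℚ)} (h : IntSpan n D V) :
    FiniteDimensional ℚ V ∧ ∀ v ∈ V, ∀ l, n ≤ l → v l = 0 := by
  obtain ⟨G, hG, rfl⟩ := h
  constructor
  · exact FiniteDimensional.span_of_finite ℚ ((G.finite_toSet).image zvec)
  · intro v hv
    induction hv using Submodule.span_induction with
    | mem x hx =>
      obtain ⟨g, hg, rfl⟩ := hx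
      intro l hl
      unfold zvec
      rw [Finsupp.mapRange_apply, (hG g hg).2 l hl, Int.cast_zero]
    | zero =>
      intro l _
      rfl
    | add x y _ _ hx hy =>
      intro l hl
      rw [Finsupp.add_apply, hx l hl, hy l hl, add_zero]
    | smul a x _ hx =>
      intro l hl
      rw [Finsupp.smul_apply, hx l hl, smul_zero]

theorem mod (hvdm : VdmStmt) : ModStmt := by
  classical
  intro n R D q ι _ V hq hcard _ hint hdim
  have hfd : ∀ i, FiniteDimensional ℚ (V i) := fun i => (supp_of_intSpan (hint i)).1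
  have hsupp : ∀ i, ∀ v ∈ V i, ∀ l, n ≤ l → v l = 0 := fun i => (supp_of_intSpan (hint i)).2
  let r : ι → ℕ := fun i => Module.finrank ℚ (V i)
  let B : ∀ i, Module.Basis (Fin (r i)) ℚ (V i) := fun i => Module.finBasis ℚ (V i)
  let w : ∀ i, Fin (r i) → ℕ →₀ ℚ := fun i a => (B i a : ℕ →₀ ℚ)
  let Δ : ∀ i, MultilinearMap ℚ (fun _ : Fin (r i) => ℕ → ℚ) ℚ := fun i =>
    (Matrix.detRowAlternating (R := ℚ) (n := Fin (r i))).toMultilinearMap.compLinearMap
      (fun _ => pair n (w i))
  have hΔ : ∀ i u, Δ i u =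
      (Matrix.of fun (j a : Fin (r i)) => ∑ l ∈ Finset.range n, w i a l * u j l).det := by
    intro i u
    show Matrix.det (fun j => pair n (w i) (u j)) = _
    refine congrArg Matrix.det ?_
    ext j a
    exact pair_apply n (w i) (u j) a
  have hminor : ∀ i, ∃ c : Fin (r i) → ℕ, (∀ j, c j < n) ∧
      Δ i (fun j => Pi.single (c j) 1) ≠ 0 := by
    intro i
    have hli : LinearIndependent ℚ (fun (a : Fin (r i)) (l : Fin n) => w i a l) := by
      rw [Fintype.linearIndependent_iff]
      intro c hc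
      have h0 : ∑ a, c a • B i a = 0 := by
        apply Subtype.ext
        rw [AddSubmonoidClass.coe_finsetSum]
        ext l
        rw [Finsupp.finsetSum_apply]
        by_cases hl : l < n
        · have h := congrFun hc ⟨l, hl⟩
          rw [Finset.sum_apply] at h
          exact h
        · refine Finset.sum_eq_zero fun a _ => ?_
          have h2 := hsupp i (w i a) (B i a).2 l (not_lt.1 hl)
          show c a • (w i a) l = 0
          rw [h2, smul_zero]
      exact Fintype.linearIndependent_iff.1 (B i).linearIndependent c h0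
    obtain ⟨jj, hjj⟩ := Pool.Agent.RS.H82.exists_minor _ hli
    refine ⟨fun j => jj j, fun j => (jj j).2, ?_⟩
    rw [hΔ, ← Matrix.det_transpose]
    have e : (Matrix.of fun (j a : Fin (r i)) => ∑ l ∈ Finset.range n,
        w i a l * (Pi.single (jj j : ℕ) (1 : ℚ) : ℕ → ℚ) l).transpose =
        Matrix.of fun (l j : Fin (r i)) => w i l (jj j) := by
      ext a j
      rw [Matrix.transpose_apply, Matrix.of_apply, Matrix.of_apply, Finset.sum_eq_single (jj j : ℕ)]
      · rw [Pi.single_eq_same, mul_one]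
      · intro l _ hne
        rw [Pi.single_eq_of_ne hne, mul_zero]
      · intro h
        exact absurd (Finset.mem_range.2 (jj j).2) h
    rw [e]
    exact hjj
  obtain ⟨α, hα⟩ := mln hvdm ℚ n q R ι r Δ hq hcard hdim hminor
  refine ⟨α, fun i v hv hz => ?_⟩
  have hdet := hα i
  rw [hΔ] at hdet
  have h0 := Matrix.eq_zero_of_mulVec_eq_zero (v := fun a => (B i).repr ⟨v, hv⟩ a) hdet (by
    funext j
    rw [Pi.zero_apply, Matrix.mulVec, dotProduct]
    have hv2 : ∀ l, v l = ∑ a, (B i).repr ⟨v, hv⟩ a * w i a l := by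
      intro l
      have h1 := congrArg (fun x : V i => (x : ℕ →₀ ℚ) l) ((B i).sum_repr ⟨v, hv⟩)
      simp only at h1
      rw [← h1, AddSubmonoidClass.coe_finsetSum, Finsupp.finsetSum_apply]
      rfl
    refine Eq.trans ?_ (hz (Fin.castLE (hdim i) j))
    simp only [Matrix.of_apply, Finset.sum_mul]
    rw [Finset.sum_comm]
    refine Finset.sum_congr rfl fun l hl => ?_
    rw [hv2 l, Finset.sum_mul]
    refine Finset.sum_congr rfl fun a _ => ?_
    rw [if_pos (Finset.mem_range.1 hl)]
    ring)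
  have h1 : (⟨v, hv⟩ : V i) = 0 := by
    rw [← (B i).sum_repr ⟨v, hv⟩]
    refine Finset.sum_eq_zero fun a _ => ?_
    have h2 := congrFun h0 a
    simp only [Pi.zero_apply] at h2
    rw [h2, zero_smul]
  exact congrArg Subtype.val h1

end Pool.Agent.TOR.H22
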