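import Pool.Agent.TOR.Stmts

/-!
# Squad TOR, row VDM (helper22)
-/

set_option autoImplicit false

namespace Pool.Agent.TOR.H22

open Pool.Agent.TOR

theorem cast_wt (q b l : ℕ) : ((wt q b l : ℕ) : ZMod q) = (b : ZMod q) ^ l := by
  unfold wt
  rw [ZMod.natCast_mod, Nat.cast_pow]

theorem cast_fin_inj (q : ℕ) {a b : Fin q} (h : ((a : ℕ) : ZMod q) = ((b : ℕ) : ZMod q)) :
    a = b := by
  rw [ZMod.natCast_eq_natCast_iff', Nat.mod_eq_of_lt a.2, Nat.mod_eq_of_lt b.2] at h
  exact Fin.ext h

/-- `n` different elements of `S` -/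
theorem exists_pts {q n : ℕ} (S : Finset (Fin q)) (h : n ≤ S.card) :
    ∃ b : Fin n → Fin q, Function.Injective b ∧ ∀ i, b i ∈ S := by
  obtain ⟨T, hT, hc⟩ := Finset.exists_subset_card_eq h
  refine ⟨fun i => T.orderEmbOfFin hc i, fun i j hij => (T.orderEmbOfFin hc).injective hij, ?_⟩
  intro i
  exact hT (Finset.orderEmbOfFin_mem T hc i)

theorem vdm : VdmStmt := by
  classical
  intro n q hq
  have : Fact q.Prime := ⟨hq⟩
  have hvan : ∀ b : Fin n → Fin q, Function.Injective b →
      (Matrix.of fun (i l : Fin n) => ((wt q (b i) l : ℕ) : ZMod q)).det ≠ 0 := by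
    intro b hb
    have e : (Matrix.of fun (i l : Fin n) => ((wt q (b i) l : ℕ) : ZMod q)) =
        Matrix.vandermonde (fun i => ((b i : ℕ) : ZMod q)) := by
      ext i l
      rw [Matrix.of_apply, cast_wt, Matrix.vandermonde_apply]
    rw [e, Matrix.det_vandermonde_ne_zero_iff]
    intro i j hij
    exact hb (cast_fin_inj q hij)
  constructor
  · intro K _ _ c ⟨l₀, hl₀, hc⟩ S hS
    by_contra hcon
    push Not at hcon
    obtain ⟨b, hb, hbS⟩ := exists_pts S hcon
    have hZ : (Matrix.of fun (i l : Fin n) => ((wt q (b i) l : ℕ) : ℤ)).det ≠ 0 := by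
      intro h
      apply hvan b hb
      have h2 := congrArg (Int.castRingHom (ZMod q)) h
      rw [map_zero, RingHom.map_det] at h2
      rw [← h2]
      refine congrArg Matrix.det ?_
      ext i l
      simp
    have hK : (Matrix.of fun (i l : Fin n) => ((wt q (b i) l : ℕ) : K)).det ≠ 0 := by
      have e : (Matrix.of fun (i l : Fin n) => ((wt q (b i) l : ℕ) : K)).det =
          ((Matrix.of fun (i l : Fin n) => ((wt q (b i) l : ℕ) : ℤ)).det : K) := by
        show _ = Int.castRingHom K _
        rw [RingHom.map_det]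
        refine congrArg Matrix.det ?_
        ext i l
        simp
      rw [e]
      exact Int.cast_ne_zero.2 hZ
    have h0 := Matrix.eq_zero_of_mulVec_eq_zero (v := fun l : Fin n => c l) hK (by
      funext i
      have h := hS (b i) (hbS i)
      rw [Finset.sum_range] at h
      rw [Pi.zero_apply, ← h, Matrix.mulVec, dotProduct]
      refine Finset.sum_congr rfl fun l _ => ?_
      rw [Matrix.of_apply, mul_comm])
    exact hc (congrFun h0 ⟨l₀, hl₀⟩)
  · intro c ⟨l₀, hl₀, hc⟩ S hS
    by_contra hcon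
    push Not at hcon
    obtain ⟨b, hb, hbS⟩ := exists_pts S hcon
    have h0 := Matrix.eq_zero_of_mulVec_eq_zero (v := fun l : Fin n => c l) (hvan b hb) (by
      funext i
      have h := hS (b i) (hbS i)
      rw [Finset.sum_range] at h
      rw [Pi.zero_apply, ← h, Matrix.mulVec, dotProduct]
      refine Finset.sum_congr rfl fun l _ => ?_
      rw [Matrix.of_apply, mul_comm])
    exact hc (congrFun h0 ⟨l₀, hl₀⟩)

end Pool.Agent.TOR.H22
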